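import Mathlib
import Pool.Agent.H525.EX.Stm2

/-!
# Project EX (helper525), LOC: local polynomials, reflection and values (helper139)
-/

namespace Pool.Agent.H139.EX

open Polynomial
open Pool.Agent.H525.EX

theorem sum_shift (a : ℕ) (f : ℤ → ℝ) :
    ∑ e ∈ Finset.Icc (-(a : ℤ)) (3 * (a : ℤ) + 1), f e =
      ∑ j ∈ Finset.range (4 * a + 2), f ((j : ℤ) - (a : ℤ)) := by
  refine (Finset.sum_nbij' (fun j : ℕ => (j : ℤ) - (a : ℤ)) (fun e : ℤ => (e + a).toNat)
    ?_ ?_ ?_ ?_ ?_).symm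
  · intro j hj
    rw [Finset.mem_range] at hj
    rw [Finset.mem_Icc]
    constructor <;> omega
  · intro e he
    rw [Finset.mem_Icc] at he
    rw [Finset.mem_range]
    omega
  · intro j _
    show ((j : ℤ) - (a : ℤ) + a).toNat = j
    omega
  · intro e he
    rw [Finset.mem_Icc] at he
    show (((e + a).toNat : ℕ) : ℤ) - (a : ℤ) = e
    omega
  · intro j _
    rfl

/-- The polynomial of a row. -/
noncomputable def Hp (Q : ℝ) (w : Arr) (a : ℕ) : ℝ[X] :=
  ∑ j ∈ Finset.range (4 * a + 2), C (Q ^ a * w (a : ℤ) ((j : ℤ) - (a : ℤ))) * X ^ j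

theorem H_even (ε Q : ℝ) (a : ℕ) : H ε Q (2 * a) = Hp Q (ca ε Q⁻¹).1 a := by
  have h1 : 2 * a / 2 = a := by omega
  have h2 : 2 * a % 2 = 0 := by omega
  unfold H Hp
  rw [h1, h2]
  rfl

theorem H_odd (ε Q : ℝ) (a : ℕ) : H ε Q (2 * a + 1) = Hp Q (ca ε Q⁻¹).2 a := by
  have h1 : (2 * a + 1) / 2 = a := by omega
  have h2 : (2 * a + 1) % 2 = 1 := by omega
  unfold H Hp
  rw [h1, h2]
  rfl

theorem coeff_Hp (Q : ℝ) (w : Arr) (a k : ℕ) :
    (Hp Q w a).coeff k = if k < 4 * a + 2 then Q ^ a * w (a : ℤ) ((k : ℤ) - (a : ℤ)) else 0 := by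
  unfold Hp
  rw [finsetSum_coeff]
  simp only [coeff_C_mul, coeff_X_pow, mul_ite, mul_one, mul_zero]
  rw [Finset.sum_ite_eq]
  simp only [Finset.mem_range]

theorem eval_Hp (Q : ℝ) (w : Arr) (a : ℕ) : (Hp Q w a).eval 1 = Q ^ a * sm w a := by
  unfold Hp sm
  rw [sum_shift a (fun e => w (a : ℤ) e), eval_finsetSum, Finset.mul_sum]
  refine Finset.sum_congr rfl fun j _ => ?_
  simp

theorem der_Hp (Q : ℝ) (w : Arr) (a : ℕ) :
    (derivative (Hp Q w a)).eval 1 = Q ^ a * (-dv w a + a * sm w a) := by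
  unfold Hp sm dv
  rw [sum_shift a (fun e => w (a : ℤ) e), sum_shift a (fun e => (e : ℝ) * w (a : ℤ) e),
    derivative_sum, eval_finsetSum, neg_neg, Finset.mul_sum, ← Finset.sum_add_distrib,
    Finset.mul_sum]
  refine Finset.sum_congr rfl fun j _ => ?_
  rw [derivative_C_mul_X_pow]
  simp only [eval_mul, eval_C, eval_pow, eval_X, one_pow, mul_one]
  push_cast
  ring

theorem t_loc : S_loc := by
  intro ε Q _ _ hS hv0 hdv
  obtain ⟨u, hu⟩ : ∃ u : Arr, u = (ca ε Q⁻¹).1 := ⟨_, rfl⟩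
  obtain ⟨v, hv⟩ : ∃ v : Arr, v = (ca ε Q⁻¹).2 := ⟨_, rfl⟩
  have hE : ∀ a, H ε Q (2 * a) = Hp Q u a := fun a => by rw [hu]; exact H_even ε Q a
  have hO : ∀ a, H ε Q (2 * a + 1) = Hp Q v a := fun a => by rw [hv]; exact H_odd ε Q a
  rw [← hu, ← hv] at hS
  rw [← hv] at hv0 hdv
  -- the last coefficient of an even row
  have hlast : ∀ a : ℕ, u (a : ℤ) (((4 * a + 1 : ℕ) : ℤ) - (a : ℤ)) = 0 := by
    intro a
    have h1 := hS.pre.ua (a : ℤ) (-(a : ℤ) - 1)
    rw [hS.pre.us (a : ℤ) (-(a : ℤ) - 1) (by omega), mul_zero] at h1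
    rw [← h1]
    congr 1
    push_cast
    ring
  have hparity : ∀ m : ℕ, (∃ a, m = 2 * a) ∨ ∃ a, m = 2 * a + 1 := fun m => by
    rcases Nat.even_or_odd m with ⟨a, ha⟩ | ⟨a, ha⟩
    · exact Or.inl ⟨a, by omega⟩
    · exact Or.inr ⟨a, ha⟩
  have hdegE : ∀ a : ℕ, (Hp Q u a).natDegree ≤ 4 * a := by
    intro a
    rw [natDegree_le_iff_coeff_eq_zero]
    intro k hk
    rw [coeff_Hp]
    split_ifs with h
    · have h1 : k = 4 * a + 1 := by omega
      rw [h1, hlast, mul_zero]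
    · rfl
  have hdegO : ∀ a : ℕ, (Hp Q v a).natDegree ≤ 4 * a + 1 := by
    intro a
    rw [natDegree_le_iff_coeff_eq_zero]
    intro k hk
    rw [coeff_Hp, if_neg (by omega)]
  refine ⟨?_, ?_, ?_, ?_⟩
  · have h0 := hE 0
    rw [mul_zero] at h0
    rw [h0]
    have h1 : u 0 1 = 0 := by
      have h2 := hlast 0
      simpa using h2
    have h2 : u 0 0 = 1 := by
      have h3 := hS.N 0
      unfold sm at h3
      have h4 := sum_shift 0 (fun e => u 0 e)
      rw [Nat.cast_zero] at h4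
      rw [h4, if_pos rfl] at h3
      simp only [mul_zero, zero_add, Finset.sum_range_succ, Finset.sum_range_zero, Nat.cast_zero,
        Nat.cast_one, sub_zero, h1, add_zero] at h3
      exact h3
    ext k
    rw [coeff_Hp, coeff_one]
    rcases k with _ | _ | k
    · simp [h2]
    · simp [h1]
    · rw [if_neg (by omega), if_neg (by omega)]
  · intro m
    rcases hparity m with ⟨a, rfl⟩ | ⟨a, rfl⟩
    · have e1 : 2 * a / 2 = a := by omega
      have e2 : 2 * a % 2 = 0 := by omega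
      rw [e1, e2, hE, add_zero, pow_zero, one_mul]
      refine ⟨hdegE a, ?_⟩
      ext k
      rw [coeff_reflect, coeff_C_mul, coeff_Hp, coeff_Hp]
      rcases le_or_gt k (4 * a) with hk | hk
      · rw [revAt_le hk, if_pos (by omega), if_pos (by omega)]
        have h1 := hS.pre.ua (a : ℤ) ((k : ℤ) - (a : ℤ))
        have h2 : (((4 * a - k : ℕ) : ℤ) - (a : ℤ)) = 2 * (a : ℤ) - ((k : ℤ) - (a : ℤ)) := by omega
        rw [h2, h1, zpow_natCast]
        ring
      · rw [revAt_eq_self_of_lt hk]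
        split_ifs with h
        · have h1 : k = 4 * a + 1 := by omega
          rw [h1, hlast, mul_zero, mul_zero]
        · rw [mul_zero]
    · have e1 : (2 * a + 1) / 2 = a := by omega
      have e2 : (2 * a + 1) % 2 = 1 := by omega
      rw [e1, e2, hO, pow_one]
      refine ⟨hdegO a, ?_⟩
      ext k
      rw [coeff_reflect, coeff_C_mul, coeff_Hp, coeff_Hp]
      rcases le_or_gt k (4 * a + 1) with hk | hk
      · rw [revAt_le hk, if_pos (by omega), if_pos (by omega)]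
        have h1 := hS.pre.va (a : ℤ) ((k : ℤ) - (a : ℤ))
        have h2 : (((4 * a + 1 - k : ℕ) : ℤ) - (a : ℤ)) =
            2 * (a : ℤ) + 1 - ((k : ℤ) - (a : ℤ)) := by omega
        rw [h2, h1, zpow_natCast]
        ring
      · rw [revAt_eq_self_of_lt hk, if_neg (by omega), mul_zero]
  · intro m hm
    rcases hparity m with ⟨a, rfl⟩ | ⟨a, rfl⟩
    · rw [hE, eval_Hp, hS.N, if_neg (by omega), mul_zero]
    · rw [hO, eval_Hp, hv0, mul_zero]
  · intro a
    rw [hO, der_Hp, hv0, hdv]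
    ring

end Pool.Agent.H139.EX
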